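import Pool.Agent.W873.RS.Stm

/-!
Project RS, part NEG.
-/

set_option autoImplicit false

open Polynomial

namespace Pool.Agent.W153.RS.NEG

open Pool.Agent.W873.RS

theorem lin_comp (A : Finset ℕ) (σ : ℕ → ℝ) (z : A → ℝ) :
    (lin A σ z).comp (-X) = lin A (fun j => (-1) ^ j * σ j) z := by
  unfold lin
  rw [Polynomial.sum_comp]
  refine Finset.sum_congr rfl fun j _ => ?_
  rw [mul_comp, C_comp, X_pow_comp, neg_pow]
  simp only [map_mul, map_pow, map_neg, map_one]
  ring

theorem total_comp {s : ℕ} (A : Fin s → Finset ℕ) (σ : Fin s → ℕ → ℝ) (c : Fin s → ℝ)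
    (h : ℝ[X]) (z : (i : Fin s) → A i → ℝ) :
    (total A σ c h z).comp (-X) =
      total A (fun i j => (-1) ^ j * σ i j) c (h.comp (-X)) z := by
  unfold total
  rw [add_comp, Polynomial.sum_comp]
  congr 1
  refine Finset.sum_congr rfl fun i _ => ?_
  rw [mul_comp, C_comp, pow_comp, lin_comp]

theorem roots_le (T : ℝ[X]) :
    T.roots.toFinset.card ≤ npos T + npos (T.comp (-X)) + 1 := by
  classical
  have h1 : T.roots.toFinset ⊆ (T.roots.toFinset.filter (fun x => 0 < x)) ∪
      (T.roots.toFinset.filter (fun x => x < 0)) ∪ {0} := by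
    intro x hx
    simp only [Finset.mem_union, Finset.mem_filter, Finset.mem_singleton]
    rcases lt_trichotomy x 0 with h | h | h
    · exact Or.inl (Or.inr ⟨hx, h⟩)
    · exact Or.inr h
    · exact Or.inl (Or.inl ⟨hx, h⟩)
  have h2 : (T.roots.toFinset.filter (fun x => x < 0)).card = npos (T.comp (-X)) := by
    unfold npos
    rw [roots_comp_neg_X]
    have h3 : ((T.roots.map fun x => -x).toFinset.filter (fun x => 0 < x)) =
        (T.roots.toFinset.filter (fun x => x < 0)).image (fun x => -x) := by
      ext y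
      simp only [Finset.mem_filter, Multiset.mem_toFinset, Multiset.mem_map, Finset.mem_image]
      constructor
      · rintro ⟨⟨x, hx, rfl⟩, hy⟩
        exact ⟨x, ⟨hx, by linarith⟩, rfl⟩
      · rintro ⟨x, ⟨hx, hx0⟩, rfl⟩
        exact ⟨⟨x, hx, rfl⟩, by linarith⟩
    rw [h3, Finset.card_image_of_injective _ neg_injective]
  calc T.roots.toFinset.card ≤ _ := Finset.card_le_card h1
    _ ≤ ((T.roots.toFinset.filter (fun x => 0 < x)) ∪
      (T.roots.toFinset.filter (fun x => x < 0))).card + ({0} : Finset ℝ).card :=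
        Finset.card_union_le _ _
    _ ≤ (T.roots.toFinset.filter (fun x => 0 < x)).card +
      (T.roots.toFinset.filter (fun x => x < 0)).card + 1 := by
        rw [Finset.card_singleton]
        exact Nat.add_le_add_right (Finset.card_union_le _ _) 1
    _ = npos T + npos (T.comp (-X)) + 1 := by rw [h2]; rfl

theorem main : NEG := by
  intro s A σ c h z
  refine ⟨?_, ?_⟩
  · rw [← total_comp]
    exact roots_le _
  · congr 1
    ext n
    rw [mem_support_iff, mem_support_iff]
    have e : (-X : ℝ[X]) = C (-1) * X := by simp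
    rw [e, comp_C_mul_X_coeff]
    simp

end Pool.Agent.W153.RS.NEG
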